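import Pool.Agent.H28.RC.Targets1

/-!
# Poisson summation with a shift
-/

set_option autoImplicit false

open MeasureTheory Set

namespace Pool.Agent.H68.RC

open Pool.Agent.H25.HK Pool.Agent.H25 Pool.Agent.H28.RC

theorem continuous_gj {ι : Type} [Fintype ι] (J : Finset ι) :
    Continuous (gj J : (ι → ℝ) → ℝ) := by
  unfold gj
  fun_prop

theorem continuous_gj_mulVec {ι : Type} [Fintype ι] [DecidableEq ι] (A : Matrix ι ι ℝ)
    (J : Finset ι) : Continuous (fun x : ι → ℝ => gj J (A.mulVec x)) :=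
  (continuous_gj J).comp (Continuous.matrix_mulVec continuous_const continuous_id)

/-- (PO) -/
theorem pf_PO : T_PS → T_GAc → T_GSc → T_POc := by
  intro h1 h2 h3 ι _ _ A J hA x₀
  have key : ∀ (A : Matrix ι ι ℝ), A.det ≠ 0 → ∀ x₀ : ι → ℝ,
      Summable (fun m : ι → ℤ => ‖gj J (A.mulVec (fun i => (m i : ℝ) + x₀ i))‖) := by
    intro A hA x₀
    obtain ⟨B, hB, hB2⟩ := h3 ι A J hA x₀
    refine Summable.of_nonneg_of_le (fun m => norm_nonneg _) (fun m => ?_) hB
    have := hB2 m (fun _ => 0) (fun i => ⟨le_rfl, zero_le_one⟩)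
    simpa using this
  have hA' : (A⁻¹).transpose.det ≠ 0 := by
    rw [Matrix.det_transpose, Matrix.det_nonsing_inv]
    simpa using hA
  have k2 : Summable (fun k : ι → ℤ => ‖gj J ((A⁻¹).transpose.mulVec (fun i => (k i : ℝ)))‖) := by
    have := key _ hA' (fun _ => 0)
    simpa using this
  refine ⟨key A hA x₀, k2, ?_⟩
  obtain ⟨B, hB, hB2⟩ := h3 ι A J hA x₀
  let f : (ι → ℝ) → ℂ := fun x => ((gj J (A.mulVec (x + x₀)) : ℝ) : ℂ)
  have hint : Integrable (fun x : ι → ℝ => ((gj J (A.mulVec x) : ℝ) : ℂ)) :=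
    ((h2 ι A J hA 0).1).ofReal
  have hF : ∀ k : ι → ℤ,
      ∫ x : ι → ℝ, Complex.exp (-(2 * Real.pi * (∑ i, (k i : ℝ) * x i) : ℝ) * Complex.I) * f x =
      ((|A.det|⁻¹ : ℝ) : ℂ) * (-Complex.I) ^ J.card *
        (Complex.exp ((2 * Real.pi * (∑ i, (k i : ℝ) * x₀ i) : ℝ) * Complex.I) *
          (gj J ((A⁻¹).transpose.mulVec (fun i => (k i : ℝ))) : ℂ)) := by
    intro k
    have e1 := integral_add_right_eq_self (μ := (volume : Measure (ι → ℝ)))
      (fun x : ι → ℝ => Complex.exp (-(2 * Real.pi * (∑ i, (k i : ℝ) * (x i - x₀ i)) : ℝ) *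
        Complex.I) * ((gj J (A.mulVec x) : ℝ) : ℂ)) x₀
    have e2 : (fun x : ι → ℝ => Complex.exp (-(2 * Real.pi * (∑ i, (k i : ℝ) * x i) : ℝ) *
        Complex.I) * f x) = fun x : ι → ℝ => (fun x : ι → ℝ =>
          Complex.exp (-(2 * Real.pi * (∑ i, (k i : ℝ) * (x i - x₀ i)) : ℝ) *
        Complex.I) * ((gj J (A.mulVec x) : ℝ) : ℂ)) (x + x₀) := by
      funext x
      simp [f]
    rw [e2, e1]
    have e3 : (fun x : ι → ℝ => Complex.exp (-(2 * Real.pi * (∑ i, (k i : ℝ) * (x i - x₀ i)) : ℝ) *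
        Complex.I) * ((gj J (A.mulVec x) : ℝ) : ℂ)) = fun x : ι → ℝ =>
        Complex.exp ((2 * Real.pi * (∑ i, (k i : ℝ) * x₀ i) : ℝ) * Complex.I) *
        (Complex.exp (-(2 * Real.pi * (∑ i, (k i : ℝ) * x i) : ℝ) * Complex.I) *
          ((gj J (A.mulVec x) : ℝ) : ℂ)) := by
      funext x
      rw [← mul_assoc, ← Complex.exp_add]
      congr 2
      have : ∑ i, (k i : ℝ) * (x i - x₀ i) = ∑ i, (k i : ℝ) * x i - ∑ i, (k i : ℝ) * x₀ i := by
        rw [← Finset.sum_sub_distrib]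
        exact Finset.sum_congr rfl fun i _ => by ring
      rw [this]
      push_cast
      ring
    rw [e3, integral_const_mul, (h2 ι A J hA (fun i => (k i : ℝ))).2]
    ring
  have h := h1 ι f B (Complex.continuous_ofReal.comp ((continuous_gj_mulVec A J).comp
      (continuous_id.add continuous_const)))
    (hint.comp_add_right x₀)
    (fun m x hx => by
      change ‖((gj J (A.mulVec ((fun i => x i + (m i : ℝ)) + x₀)) : ℝ) : ℂ)‖ ≤ B m
      rw [Complex.norm_real]
      exact hB2 m x hx) hB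
    (by
      simp only [hF]
      refine Summable.mul_left _ (Summable.of_norm ?_)
      refine k2.congr fun k => ?_
      rw [norm_mul, Complex.norm_exp_ofReal_mul_I, one_mul, Complex.norm_real])
  simp only [hF] at h
  rw [← tsum_mul_left]
  exact h

end Pool.Agent.H68.RC
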