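import Pool.Agent.H3.HK.GM
import Pool.Agent.H28.RC.Targets1

/-!
# The matrix of the coordinates of a basis
-/

set_option autoImplicit false

open NumberField NumberField.InfinitePlace Complex
open scoped ComplexConjugate Matrix

namespace Pool.Agent.H68.RC

open Pool.Agent.H25.HK Pool.Agent.H25 Pool.Agent.H28.RC Pool.Agent.H3.HK

section

variable {K : Type} [Field K] [NumberField K]

theorem co_sum (ε : ℝ) (y : InfinitePlace K → ℝ) {ι : Type} [Fintype ι] (b : ι → K) (m : ι → ℚ)
    (c : mixedEmbedding.index K) :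
    co K ε y (∑ i, m i • b i) c = ∑ i, co K ε y (b i) c * ((m i : ℚ) : ℝ) := by
  rcases c with v | ⟨v, i⟩
  · change Real.exp (y v.1 / 2) * re v (∑ i, m i • b i) =
      ∑ i, (Real.exp (y v.1 / 2) * re v (b i)) * ((m i : ℚ) : ℝ)
    have : re v (∑ i, m i • b i) = ∑ i, ((m i : ℚ) : ℝ) * re v (b i) := by
      unfold H28.RC.re
      rw [map_sum]
      refine Finset.sum_congr rfl fun i _ => ?_
      rw [map_rat_smul, Rat.smul_def]
    rw [this, Finset.mul_sum]
    exact Finset.sum_congr rfl fun i _ => by ring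
  · have h : v.1.embedding (∑ i, m i • b i) = ∑ i, (m i : ℚ) • v.1.embedding (b i) := by
      rw [map_sum]
      exact Finset.sum_congr rfl fun i _ => map_rat_smul _ _ _
    have hre : (v.1.embedding (∑ i, m i • b i)).re =
        ∑ i, ((m i : ℚ) : ℝ) * (v.1.embedding (b i)).re := by
      rw [h, Complex.re_sum]
      exact Finset.sum_congr rfl fun i _ => by rw [Complex.smul_re, Rat.smul_def]
    have him : (v.1.embedding (∑ i, m i • b i)).im =
        ∑ i, ((m i : ℚ) : ℝ) * (v.1.embedding (b i)).im := by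
      rw [h, Complex.im_sum]
      exact Finset.sum_congr rfl fun i _ => by rw [Complex.smul_im, Rat.smul_def]
    change Real.sqrt 2 * Real.exp (y v.1 / 2) * (if i = 0 then
      (v.1.embedding (∑ i, m i • b i)).re else ε * (v.1.embedding (∑ i, m i • b i)).im) =
      ∑ j, (Real.sqrt 2 * Real.exp (y v.1 / 2) * (if i = 0 then (v.1.embedding (b j)).re else
        ε * (v.1.embedding (b j)).im)) * ((m j : ℚ) : ℝ)
    split_ifs with hi
    · rw [hre, Finset.mul_sum]
      exact Finset.sum_congr rfl fun i _ => by ring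
    · rw [him, Finset.mul_sum, Finset.mul_sum]
      exact Finset.sum_congr rfl fun i _ => by ring

/-- the sum over the embeddings of a function which commutes with conjugation -/
theorem sum_emb (F : (K →+* ℂ) → ℂ)
    (hF : ∀ φ, F (ComplexEmbedding.conjugate φ) = conj (F φ)) :
    (∑ φ, F φ).re = ∑ v : InfinitePlace K, (v.mult : ℝ) * (F v.embedding).re := by
  rw [Complex.re_sum, ← sum_mk K (fun v => (F v.embedding).re)]
  refine Finset.sum_congr rfl fun φ _ => ?_
  have h : InfinitePlace.mk (InfinitePlace.mk φ).embedding = InfinitePlace.mk φ := mk_embedding _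
  rcases mk_eq_iff.1 h with h | h
  · rw [h]
  · have h2 := hF (InfinitePlace.mk φ).embedding
    rw [h] at h2
    rw [h2, Complex.conj_re]

open scoped Classical in
/-- the sum over the coordinates -/
theorem sum_co (g : InfinitePlace K → ℝ) (f : mixedEmbedding.index K → ℝ)
    (h1 : ∀ v : {v : InfinitePlace K // v.IsReal}, f (Sum.inl v) = g v.1)
    (h2 : ∀ v : {v : InfinitePlace K // v.IsComplex},
      f (Sum.inr (v, 0)) + f (Sum.inr (v, 1)) = 2 * g v.1) :
    ∑ c, f c = ∑ v : InfinitePlace K, (v.mult : ℝ) * g v := by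
  classical
  have e1 : ∑ c, f c = (∑ v : {v : InfinitePlace K // v.IsReal}, g v.1) +
      ∑ v : {v : InfinitePlace K // v.IsComplex}, 2 * g v.1 := by
    rw [Fintype.sum_sum_type]
    congr 1
    · exact Finset.sum_congr rfl fun v _ => h1 v
    · rw [Fintype.sum_prod_type]
      refine Finset.sum_congr rfl fun v _ => ?_
      rw [Fin.sum_univ_two]
      exact h2 v
  have e2 : ∀ G : InfinitePlace K → ℝ, ∑ v, G v =
      (∑ v : {v : InfinitePlace K // v.IsReal}, G v.1) +
        ∑ v : {v : InfinitePlace K // v.IsComplex}, G v.1 := by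
    intro G
    have h3 : ∀ v : InfinitePlace K, v.IsComplex ↔ ¬ v.IsReal := fun v =>
      not_isReal_iff_isComplex.symm
    rw [← Finset.sum_subtype (Finset.univ.filter fun v : InfinitePlace K => v.IsReal)
        (fun v => by simp) G,
      ← Finset.sum_subtype (Finset.univ.filter fun v : InfinitePlace K => ¬ v.IsReal)
        (fun v => by simp) G]
    exact (Finset.sum_filter_add_sum_filter_not _ _ _).symm
  rw [e1, e2]
  congr 1
  · refine Finset.sum_congr rfl fun v _ => ?_
    rw [mult_isReal]
    simp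
  · refine Finset.sum_congr rfl fun v _ => ?_
    rw [mult_isComplex]
    norm_num

omit [NumberField K] in
theorem re_eq (v : {v : InfinitePlace K // v.IsReal}) (x : K) :
    v.1.embedding x = ((re v x : ℝ) : ℂ) := by
  unfold H28.RC.re
  exact (embedding_of_isReal_apply v.2 x).symm

/-- the trace form in coordinates -/
theorem co_trace (y : InfinitePlace K → ℝ) (x z : K) :
    open scoped Classical in
    ∑ c, co K 1 y x c * co K (-1) (-y) z c = ((Algebra.trace ℚ K (x * z) : ℚ) : ℝ) := by
  classical
  have h1 := sum_co (K := K) (fun v => (v.embedding (x * z)).re)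
    (fun c => co K 1 y x c * co K (-1) (-y) z c) ?_ ?_
  · rw [h1, ← sum_emb (fun φ => φ (x * z)) (fun φ => rfl)]
    have h2 := trace_eq_sum_embeddings (K := ℚ) (L := K) ℂ (x := x * z)
    have h3 : ∑ φ : K →+* ℂ, φ (x * z) = ∑ ψ : K →ₐ[ℚ] ℂ, ψ (x * z) :=
      Fintype.sum_equiv (RingHom.equivRatAlgHom (R := K) (S := ℂ)) _ _ fun φ => rfl
    rw [h3, ← h2]
    simp
  · intro v
    change (Real.exp (y v.1 / 2) * H28.RC.re v x) * (Real.exp (-y v.1 / 2) * H28.RC.re v z) = _
    have h3 : (v.1.embedding (x * z)).re = H28.RC.re v x * H28.RC.re v z := by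
      rw [map_mul, re_eq, re_eq, ← Complex.ofReal_mul, Complex.ofReal_re]
    change _ = (v.1.embedding (x * z)).re
    rw [h3]
    have h4 : Real.exp (y v.1 / 2) * Real.exp (-y v.1 / 2) = 1 := by
      rw [← Real.exp_add]
      ring_nf
      exact Real.exp_zero
    linear_combination (H28.RC.re v x * H28.RC.re v z) * h4
  · intro v
    change (Real.sqrt 2 * Real.exp (y v.1 / 2) * (v.1.embedding x).re) *
        (Real.sqrt 2 * Real.exp (-y v.1 / 2) * (v.1.embedding z).re) +
      (Real.sqrt 2 * Real.exp (y v.1 / 2) * (1 * (v.1.embedding x).im)) *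
        (Real.sqrt 2 * Real.exp (-y v.1 / 2) * (-1 * (v.1.embedding z).im)) =
      2 * (v.1.embedding (x * z)).re
    rw [map_mul, Complex.mul_re]
    have h4 : Real.exp (y v.1 / 2) * Real.exp (-y v.1 / 2) = 1 := by
      rw [← Real.exp_add]
      ring_nf
      exact Real.exp_zero
    have h5 : Real.sqrt 2 * Real.sqrt 2 = 2 := Real.mul_self_sqrt (by norm_num)
    linear_combination (Real.sqrt 2 * Real.sqrt 2 * ((v.1.embedding x).re *
      (v.1.embedding z).re - (v.1.embedding x).im * (v.1.embedding z).im)) * h4 +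
      ((v.1.embedding x).re * (v.1.embedding z).re -
        (v.1.embedding x).im * (v.1.embedding z).im) * h5

/-- the hermitian form in coordinates -/
theorem co_Bf (y : InfinitePlace K → ℝ) (x z : K) :
    open scoped Classical in
    ∑ c, co K 1 y x c * co K 1 y z c = (Bf K y x z).re := by
  classical
  have h1 := sum_co (K := K)
    (fun v => (conj (v.embedding x) * ((Real.exp (y v) : ℝ) : ℂ) * v.embedding z).re)
    (fun c => co K 1 y x c * co K 1 y z c) ?_ ?_
  · rw [h1]
    have h2 := sum_emb (K := K)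
      (fun φ => conj (φ x) * ((Real.exp (y (InfinitePlace.mk φ)) : ℝ) : ℂ) * φ z) ?_
    · unfold Bf
      rw [h2]
      refine Finset.sum_congr rfl fun v _ => ?_
      simp only [mk_embedding]
    · intro φ
      simp only [map_mul, Complex.conj_conj, Complex.conj_ofReal, mk_conjugate_eq,
        ComplexEmbedding.conjugate_coe_eq]
  · intro v
    change (Real.exp (y v.1 / 2) * H28.RC.re v x) * (Real.exp (y v.1 / 2) * H28.RC.re v z) = _
    have h3 : (conj (v.1.embedding x) * ((Real.exp (y v.1) : ℝ) : ℂ) * v.1.embedding z).re =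
        H28.RC.re v x * Real.exp (y v.1) * H28.RC.re v z := by
      rw [re_eq, re_eq, Complex.conj_ofReal, ← Complex.ofReal_mul, ← Complex.ofReal_mul,
        Complex.ofReal_re]
    change _ = (conj (v.1.embedding x) * ((Real.exp (y v.1) : ℝ) : ℂ) * v.1.embedding z).re
    rw [h3]
    have h4 : Real.exp (y v.1 / 2) * Real.exp (y v.1 / 2) = Real.exp (y v.1) := by
      rw [← Real.exp_add]
      ring_nf
    rw [← h4]
    ring
  · intro v
    change (Real.sqrt 2 * Real.exp (y v.1 / 2) * (v.1.embedding x).re) *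
        (Real.sqrt 2 * Real.exp (y v.1 / 2) * (v.1.embedding z).re) +
      (Real.sqrt 2 * Real.exp (y v.1 / 2) * (1 * (v.1.embedding x).im)) *
        (Real.sqrt 2 * Real.exp (y v.1 / 2) * (1 * (v.1.embedding z).im)) =
      2 * (conj (v.1.embedding x) * ((Real.exp (y v.1) : ℝ) : ℂ) * v.1.embedding z).re
    have h3 : (conj (v.1.embedding x) * ((Real.exp (y v.1) : ℝ) : ℂ) * v.1.embedding z).re =
        Real.exp (y v.1) * ((v.1.embedding x).re * (v.1.embedding z).re +
          (v.1.embedding x).im * (v.1.embedding z).im) := by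
      rw [Complex.mul_re, Complex.re_mul_ofReal, Complex.im_mul_ofReal, Complex.conj_re,
        Complex.conj_im]
      ring
    rw [h3]
    have h4 : Real.exp (y v.1 / 2) * Real.exp (y v.1 / 2) = Real.exp (y v.1) := by
      rw [← Real.exp_add]
      ring_nf
    have h5 : Real.sqrt 2 * Real.sqrt 2 = 2 := Real.mul_self_sqrt (by norm_num)
    linear_combination (Real.sqrt 2 * Real.sqrt 2 * ((v.1.embedding x).re *
      (v.1.embedding z).re + (v.1.embedding x).im * (v.1.embedding z).im)) * h4 +
      Real.exp (y v.1) * ((v.1.embedding x).re * (v.1.embedding z).re +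
        (v.1.embedding x).im * (v.1.embedding z).im) * h5

end

/-- (GM) -/
theorem pf_GM : T_GM → T_GMc := by
  classical
  intro _ K _ _ b b' h y
  have hcard : Fintype.card (mixedEmbedding.index K) = Fintype.card (K →ₐ[ℚ] ℂ) := by
    rw [AlgHom.card, Module.finrank_eq_card_basis b]
  let e : mixedEmbedding.index K ≃ (K →ₐ[ℚ] ℂ) := Fintype.equivOfCardEq hcard
  let A : Matrix (mixedEmbedding.index K) (mixedEmbedding.index K) ℝ :=
    fun c i => co K 1 y (b i) c
  let A' : Matrix (mixedEmbedding.index K) (mixedEmbedding.index K) ℝ :=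
    fun c i => co K (-1) (-y) (b' i) c
  have h1 : Aᵀ * A' = 1 := by
    ext i j
    rw [Matrix.mul_apply, Matrix.one_apply]
    change ∑ c, co K 1 y (b i) c * co K (-1) (-y) (b' j) c = _
    rw [co_trace, h]
    split_ifs <;> simp
  have h2 : Aᵀ * A = Gr K b y := by
    ext i j
    rw [Matrix.mul_apply]
    change ∑ c, co K 1 y (b i) c * co K 1 y (b j) c = (Bf K y (b i) (b j)).re
    exact co_Bf y (b i) (b j)
  have h3 : A.det ^ 2 = Real.exp (∑ v, (v.mult : ℝ) * y v) *
      |((Algebra.discr ℚ b : ℚ) : ℝ)| := by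
    rw [← Gr_det K e b y, ← h2, Matrix.det_mul, Matrix.det_transpose, sq]
  have h4 : A.det ≠ 0 := by
    have h5 := congrArg Matrix.det h1
    rw [Matrix.det_mul, Matrix.det_one, Matrix.det_transpose] at h5
    exact left_ne_zero_of_mul_eq_one h5
  have h5 : (A⁻¹)ᵀ = A' := by
    rw [Matrix.transpose_nonsing_inv]
    exact Matrix.inv_eq_right_inv h1
  refine ⟨A, h4, fun m => ?_, fun m => ?_, ?_⟩
  · funext c
    rw [co_sum]
    rfl
  · rw [h5]
    funext c
    rw [co_sum]
    rfl
  · have h6 : |A.det| = Real.sqrt (A.det ^ 2) := (Real.sqrt_sq_eq_abs _).symm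
    rw [h6, h3, Real.sqrt_mul (Real.exp_pos _).le, Real.exp_half]

end Pool.Agent.H68.RC
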