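import Pool.Agent.H28.RC.Targets1

/-!
# Bases of a fractional ideal and of its dual, indexed by the real coordinates
-/

set_option autoImplicit false

open NumberField NumberField.InfinitePlace Module
open scoped nonZeroDivisors

namespace Pool.Agent.H68.RC

open Pool.Agent.H25.HK Pool.Agent.H25 Pool.Agent.H28.RC

/-- (LB) -/
theorem pf_LB : T_LB → T_LBc := by
  classical
  intro h0 K _ _ M hM
  obtain ⟨ι, _, _, b, b', h1, h2, h3, h4⟩ := h0 K M hM
  have hc : Fintype.card ι = Fintype.card (mixedEmbedding.index K) := by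
    rw [← Module.finrank_eq_card_basis b, ← mixedEmbedding.finrank,
      Module.finrank_eq_card_basis (mixedEmbedding.stdBasis K)]
  let e : ι ≃ mixedEmbedding.index K := Fintype.equivOfCardEq hc
  have hs : ∀ (c : Module.Basis ι ℚ K) (x : K), (∃ m : ι → ℤ, ∑ i, m i • c i = x) ↔
      ∃ m : mixedEmbedding.index K → ℤ, ∑ i, m i • c.reindex e i = x := by
    intro c x
    constructor
    · rintro ⟨m, rfl⟩
      refine ⟨fun i => m (e.symm i), ?_⟩
      refine (Fintype.sum_equiv e _ _ fun i => ?_).symm
      change m i • c i = m (e.symm (e i)) • c.reindex e (e i)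
      rw [Module.Basis.reindex_apply, Equiv.symm_apply_apply]
    · rintro ⟨m, rfl⟩
      refine ⟨fun i => m (e i), ?_⟩
      refine Fintype.sum_equiv e _ _ fun i => ?_
      rw [Module.Basis.reindex_apply, Equiv.symm_apply_apply]
  refine ⟨b.reindex e, b'.reindex e, ?_, ?_, ?_, ?_⟩
  · intro i j
    rw [Module.Basis.reindex_apply, Module.Basis.reindex_apply, h1]
    simp only [EmbeddingLike.apply_eq_iff_eq]
  · intro x
    rw [h2, hs]
  · intro x
    rw [h3, hs]
  · rw [← h4]
    congr 2
    have : (⇑(b.reindex e) : mixedEmbedding.index K → K) = ⇑b ∘ e.symm := by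
      funext i
      rw [Module.Basis.reindex_apply]
      rfl
    rw [this, Algebra.discr_reindex ℚ b e]

end Pool.Agent.H68.RC
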