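import Pool.Agent.H28.RC.Targets2

/-!
# Power sums of a power of a ray class character; the trivial character
-/

set_option autoImplicit false

open NumberField NumberField.InfinitePlace Complex

namespace Pool.Agent.H68.RC

open Pool.Agent.H28.RC Pool.Agent.H25.HK Pool.Agent.H25

section

variable (K : Type) [Field K] [NumberField K]

theorem span_ne_bot {p : ℕ} (hp : p.Prime) : (Ideal.span {(p : ℤ)}) ≠ ⊥ := by
  rw [Ne, Ideal.span_singleton_eq_bot]
  exact_mod_cast hp.ne_zero

theorem span_isMaximal {p : ℕ} (hp : p.Prime) : (Ideal.span {(p : ℤ)}).IsMaximal := by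
  have hpp : (Ideal.span {(p : ℤ)}).IsPrime := by
    rw [Ideal.span_singleton_prime (by exact_mod_cast hp.ne_zero)]
    exact Nat.prime_iff_prime_int.1 hp
  exact hpp.isMaximal (span_ne_bot hp)

theorem primesOver_fin {p : ℕ} (hp : p.Prime) :
    (Ideal.primesOver (Ideal.span {(p : ℤ)}) (𝓞 K)).Finite := by
  have := span_isMaximal hp
  exact IsDedekindDomain.primesOver_finite _ _

theorem inertiaDeg_le {p : ℕ} (hp : p.Prime) {P : Ideal (𝓞 K)}
    (hP : P ∈ Ideal.primesOver (Ideal.span {(p : ℤ)}) (𝓞 K)) :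
    P.inertiaDeg ℤ ≤ Module.finrank ℚ K := by
  classical
  have hm := span_isMaximal hp
  have hfin := primesOver_fin K hp
  let _ : Fintype (Ideal.primesOver (Ideal.span {(p : ℤ)}) (𝓞 K)) := hfin.fintype
  have h1 := Ideal.sum_ramification_inertia_eq_finrank (Ideal.span {(p : ℤ)}) (𝓞 K)
  rw [NumberField.RingOfIntegers.rank] at h1
  rw [← h1]
  have h3 : P.IsPrime := hP.1
  calc P.inertiaDeg ℤ ≤ P.ramificationIdx ℤ * P.inertiaDeg ℤ :=
        Nat.le_mul_of_pos_left _ (Ideal.ramificationIdx_pos P ℤ)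
    _ ≤ _ := Finset.single_le_sum
        (f := fun q : Ideal.primesOver (Ideal.span {(p : ℤ)}) (𝓞 K) =>
          q.1.ramificationIdx ℤ * q.1.inertiaDeg ℤ) (fun _ _ => Nat.zero_le _)
        (Finset.mem_univ (⟨P, hP⟩ : Ideal.primesOver (Ideal.span {(p : ℤ)}) (𝓞 K)))

end

/-- (SPA) -/
theorem pf_SPA : T_SPA := by
  classical
  intro K _ _
  refine ⟨?_, ?_⟩
  · intro χ χ' a p k hp hk ha hcop hχ
    unfold spc
    refine finsum_mem_congr rfl fun P hP => ?_
    have hPp : P.IsPrime := hP.1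
    have h1 : 0 < P.inertiaDeg ℤ := Ideal.inertiaDeg_pos P ℤ
    have h2 := inertiaDeg_le K hp hP
    have h3 : P.inertiaDeg ℤ ∣ (Module.finrank ℚ K).factorial := Nat.dvd_factorial h1 h2
    have h4 : (P.inertiaDeg ℤ).Coprime a := (Nat.Coprime.coprime_dvd_right h3 hcop).symm
    by_cases h : P.inertiaDeg ℤ ∣ k
    · rw [if_pos h, if_pos (Dvd.dvd.mul_left h a), hχ, ← pow_mul, Nat.mul_div_assoc a h]
    · rw [if_neg h, if_neg fun h5 => h (h4.dvd_of_dvd_mul_left h5)]
  · intro p k hp hk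
    unfold spc spf
    have hfin := primesOver_fin K hp
    rw [finsum_mem_eq_finite_toFinset_sum _ hfin, finsum_mem_eq_finite_toFinset_sum _ hfin,
      Nat.cast_sum]
    refine Finset.sum_congr rfl fun P hP => ?_
    rw [Set.Finite.mem_toFinset] at hP
    have hbot : P ≠ ⊥ := Ideal.ne_bot_of_mem_primesOver (span_ne_bot hp) hP
    have hψ : (triv K).ψ P = 1 := if_neg hbot
    rw [hψ, one_pow, mul_one]
    split_ifs <;> simp

end Pool.Agent.H68.RC
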