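import Pool.Agent.H11.HK.TR
import Pool.Agent.H28.RC.Targets2

/-!
# The Galois conjugates of a character
-/

set_option autoImplicit false

open NumberField NumberField.InfinitePlace Complex

namespace Pool.Agent.H68.RC

open Pool.Agent.H28.RC Pool.Agent.H25.HK Pool.Agent.H25

theorem rou' (h : T_ROU) {M a : ℕ} (hM : 1 ≤ M) (ha : a.Coprime M) (ha1 : 1 ≤ a) {ι : Type}
    [Fintype ι] (c : ι → ℚ) (z : ι → ℂ) (hz : ∀ i, z i = 0 ∨ z i ^ M = 1)
    (hs : ∑ i, (c i : ℂ) * z i = 0) : ∑ i, (c i : ℂ) * z i ^ a = 0 := by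
  classical
  have h1 := h M a hM ha ι (fun i => if z i = 0 then 0 else c i)
    (fun i => if z i = 0 then 1 else z i) (fun i => by
      by_cases hi : z i = 0
      · simp [hi]
      · rw [if_neg hi]
        exact (hz i).resolve_left hi) (by
      refine Eq.trans (Finset.sum_congr rfl fun i _ => ?_) hs
      by_cases hi : z i = 0
      · simp [hi]
      · rw [if_neg hi, if_neg hi])
  refine Eq.trans (Finset.sum_congr rfl fun i _ => ?_) h1
  by_cases hi : z i = 0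
  · rw [if_pos hi, hi, zero_pow (by omega)]
    simp
  · rw [if_neg hi, if_neg hi]

theorem fr_pow (R : DL.ArtinRep) (p : Nat.Primes) (k : ℕ) (hk : 1 ≤ k) :
    R.fr p ^ k = R.rho (R.Fr p ^ k) * R.avg (R.In p) := by
  have hcomm : Commute (R.rho (R.Fr p)) (R.avg (R.In p)) := H11.HK.avg_comm R p
  have hidem : IsIdempotentElem (R.avg (R.In p)) := H11.HK.avg_idem R _
  unfold DL.ArtinRep.fr
  rw [hcomm.mul_pow, map_pow, hidem.pow_eq (by omega)]

theorem fr_card (R : DL.ArtinRep) (p : Nat.Primes) :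
    R.fr p ^ (Nat.card (R.K ≃ₐ[ℚ] R.K) + 1) = R.fr p := by
  rw [fr_pow R p _ (by omega), pow_succ, pow_card_eq_one', one_mul]
  rfl

theorem root_of_dvd {g M : ℕ} (h : g ∣ M) {z : ℂ} (hz : z = 0 ∨ z ^ g = 1) :
    z = 0 ∨ z ^ M = 1 := by
  rcases hz with hz | hz
  · exact Or.inl hz
  · obtain ⟨c, rfl⟩ := h
    right
    rw [pow_mul, hz, one_pow]

/-- (TRX) -/
theorem pf_TRX : T_TR → T_ROU → T_EIG → T_TRX := by
  intro hTR hROU hEIG R
  classical
  refine ⟨fr_card R, ?_⟩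
  intro M hM hgM p k a hk ha hcop
  set g := Nat.card (R.K ≃ₐ[ℚ] R.K) with hg
  have hg1 : 1 ≤ g := Nat.card_pos
  have : Fintype (R.In p) := Fintype.ofFinite _
  obtain ⟨α, hα, -, hα2⟩ := hEIG R.V (R.fr p ^ k) g hg1 (by
    rw [← pow_mul, mul_comm, pow_mul, fr_card])
  have hx : ∀ x : R.K ≃ₐ[ℚ] R.K, ∃ lam : Fin (Module.finrank ℂ R.V) → ℂ,
      (∀ j, lam j = 0 ∨ lam j ^ g = 1) ∧
      ∀ i : ℕ, 1 ≤ i → LinearMap.trace ℂ R.V (R.rho (x ^ i)) = ∑ j, lam j ^ i := by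
    intro x
    obtain ⟨lam, h1, -, h2⟩ := hEIG R.V (R.rho x) g hg1 (by
      rw [← map_pow, pow_succ, hg, pow_card_eq_one', one_mul])
    refine ⟨lam, h1, fun i hi => ?_⟩
    rw [map_pow]
    exact h2 i hi
  choose lam hlam hlam2 using hx
  have hT := hTR R p k hk
  rw [finsum_eq_sum_of_fintype] at hT
  have hT1 : LinearMap.trace ℂ R.V (R.fr p ^ k) = ∑ j, α j := by
    have := hα2 1 le_rfl
    simpa using this
  have hT2 : ∀ y : R.In p, LinearMap.trace ℂ R.V (R.rho (R.Fr p ^ k * (y : R.K ≃ₐ[ℚ] R.K))) =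
      ∑ j, lam (R.Fr p ^ k * (y : R.K ≃ₐ[ℚ] R.K)) j := by
    intro y
    have := hlam2 (R.Fr p ^ k * (y : R.K ≃ₐ[ℚ] R.K)) 1 le_rfl
    simpa using this
  have key := rou' hROU (M := M) (a := a) (by omega) hcop ha
    (ι := Fin (Module.finrank ℂ R.V) ⊕ (R.In p × Fin (Module.finrank ℂ R.V)))
    (Sum.elim (fun _ => 1) (fun _ => -(Nat.card (R.In p) : ℚ)⁻¹))
    (Sum.elim α (fun q => lam (R.Fr p ^ k * (q.1 : R.K ≃ₐ[ℚ] R.K)) q.2)) (by
      rintro (j | q)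
      · exact root_of_dvd hgM (hα j)
      · exact root_of_dvd hgM (hlam _ _)) (by
      rw [Fintype.sum_sum_type, Fintype.sum_prod_type]
      simp only [Sum.elim_inl, Sum.elim_inr]
      have e1 : ∑ y : R.In p, ∑ j, (((-(Nat.card (R.In p) : ℚ)⁻¹ : ℚ)) : ℂ) *
          lam (R.Fr p ^ k * (y : R.K ≃ₐ[ℚ] R.K)) j =
          -((Nat.card (R.In p) : ℂ)⁻¹ * ∑ y : R.In p,
            LinearMap.trace ℂ R.V (R.rho (R.Fr p ^ k * (y : R.K ≃ₐ[ℚ] R.K)))) := by
        rw [Finset.mul_sum, ← Finset.sum_neg_distrib]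
        refine Finset.sum_congr rfl fun y _ => ?_
        rw [hT2, ← Finset.mul_sum]
        push_cast
        ring
      rw [e1, ← hT, hT1]
      simp)
  rw [Fintype.sum_sum_type, Fintype.sum_prod_type] at key
  simp only [Sum.elim_inl, Sum.elim_inr] at key
  have e2 : LinearMap.trace ℂ R.V (R.fr p ^ (k * a)) = ∑ j, α j ^ a := by
    rw [pow_mul]
    exact hα2 a ha
  have e3 : ∑ y : R.In p, ∑ j, (((-(Nat.card (R.In p) : ℚ)⁻¹ : ℚ)) : ℂ) *
      lam (R.Fr p ^ k * (y : R.K ≃ₐ[ℚ] R.K)) j ^ a =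
      -((Nat.card (R.In p) : ℂ)⁻¹ * ∑ y : R.In p,
        LinearMap.trace ℂ R.V (R.rho ((R.Fr p ^ k * (y : R.K ≃ₐ[ℚ] R.K)) ^ a))) := by
    rw [Finset.mul_sum, ← Finset.sum_neg_distrib]
    refine Finset.sum_congr rfl fun y _ => ?_
    rw [hlam2 _ a ha, ← Finset.mul_sum]
    push_cast
    ring
  rw [e3] at key
  unfold tp
  rw [finsum_eq_sum_of_fintype, e2]
  have e4 : ∑ j, (((1 : ℚ)) : ℂ) * α j ^ a = ∑ j, α j ^ a := by simp
  rw [e4] at key
  linear_combination -key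

end Pool.Agent.H68.RC
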