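import Pool.Agent.H28.RC.Targets2

/-!
# Powers of ray class characters
-/

set_option autoImplicit false

open NumberField NumberField.InfinitePlace Complex

namespace Pool.Agent.H68.RC

open Pool.Agent.H28.RC Pool.Agent.H25.HK Pool.Agent.H25

theorem odd_pow_of_sq {s : ℂ} (hs : s * s = 1) {a : ℕ} (ha : Odd a) : s ^ a = s := by
  obtain ⟨b, rfl⟩ := ha
  rw [pow_succ, pow_mul, sq, hs, one_pow, one_mul]

/-- (POW) -/
theorem pf_POW : T_POW := by
  intro K _ _ χ m a hm hme hval ha
  have hodd : Odd a := by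
    rw [← Nat.not_even_iff_odd]
    intro hae
    have h2 : 2 ∣ Nat.gcd a m := Nat.dvd_gcd hae.two_dvd hme.two_dvd
    rw [ha] at h2
    omega
  have ha0 : a ≠ 0 := by
    rintro rfl
    exact absurd hodd (by decide)
  refine ⟨{ f := χ.f
            S := χ.S
            ψ := fun I => χ.ψ I ^ a
            f_ne := χ.f_ne
            map_one := by rw [χ.map_one, one_pow]
            map_mul := fun I J => by rw [χ.map_mul, mul_pow]
            map_bot := by rw [χ.map_bot, zero_pow ha0]
            norm_one := fun I h1 h2 => by rw [norm_pow, χ.norm_one I h1 h2, one_pow]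
            eq_zero := fun I h => by rw [χ.eq_zero I h, zero_pow ha0]
            princ := fun b h1 h2 => by
              rw [χ.princ b h1 h2, odd_pow_of_sq (sg_sq _ _) hodd]
            prim := ?_ }, rfl, rfl, fun I => rfl⟩
  intro P hP hfP
  obtain ⟨b, h1, h2, h3, h4⟩ := χ.prim P hP hfP
  refine ⟨b, h1, h2, h3, fun h5 => h4 ?_⟩
  have hne : χ.ψ (Ideal.span {b}) ≠ 0 := by
    intro h6
    have h7 := χ.norm_one (Ideal.span {b}) (by simpa using h1) h2
    rw [h6, norm_zero] at h7
    exact zero_ne_one h7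
  have hψ : χ.ψ (Ideal.span {b}) ^ m = 1 := (hval _).resolve_left hne
  set s := sg K χ.S (b : K) with hs
  have hss : s * s = 1 := sg_sq _ _
  set w := χ.ψ (Ideal.span {b}) * s with hw
  have hwa : w ^ a = 1 := by
    rw [hw, mul_pow, odd_pow_of_sq hss hodd]
    have h6 : χ.ψ (Ideal.span {b}) ^ a = s := h5
    rw [h6, hss]
  have hwm : w ^ m = 1 := by
    rw [hw, mul_pow, hψ, one_mul]
    obtain ⟨c, rfl⟩ := hme.two_dvd
    rw [pow_mul, sq, hss, one_pow]
  have hw1 : w = 1 := by
    have h6 : orderOf w ∣ Nat.gcd a m :=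
      Nat.dvd_gcd (orderOf_dvd_of_pow_eq_one hwa) (orderOf_dvd_of_pow_eq_one hwm)
    rw [ha] at h6
    exact orderOf_eq_one_iff.1 (Nat.dvd_one.1 h6)
  calc χ.ψ (Ideal.span {b}) = χ.ψ (Ideal.span {b}) * (s * s) := by rw [hss, mul_one]
    _ = w * s := by rw [hw]; ring
    _ = s := by rw [hw1, one_mul]

end Pool.Agent.H68.RC
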