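import Pool.Agent.H83.RC.Targets

/-!
# MP_c59857_nt, smallest eigenvalue for the class of the Möbius function: row RZBC
-/

set_option autoImplicit false

namespace Pool.Agent.H68.RC

open Finset Pool.Agent.H93.DE Pool.Agent.H83.LI Pool.Agent.H78.RC

lemma sum_Ioc_range {M : Type} [AddCommMonoid M] (g : ℕ → M) (n L : ℕ) :
    ∑ x ∈ Ioc n (n + L), g x = ∑ t ∈ range L, g (n + 1 + t) := by
  induction L with
  | zero => simp
  | succ L ih =>
    rw [sum_range_succ, ← ih, ← Nat.add_assoc, sum_Ioc_succ_top (by omega)]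
    congr 2
    omega

theorem pf_RZBC (h : Pool.Agent.H87.QP.T_RZF) : Pool.Agent.H83.RC.T_RZBC := by
  intro H τ hτ
  obtain ⟨R, B, m₀, hB, hR⟩ := h H τ hτ
  refine ⟨R, B, m₀, hB, ?_⟩
  intro m w hm hw f hf c hc n
  obtain ⟨b, β, hb, hs⟩ := hR m w hm hw f hf c hc (n + 1)
  refine ⟨b, β, hb, ?_⟩
  have hL : ∀ t ∈ range (2 ^ w), ds f R (B * 2 ^ m) (n + 1 + t) (b t) (β t) =
      (∑ h ∈ Icc 1 (B * 2 ^ m), ‖f (n + 1 + t + h) - ∑ r ∈ range R,
        b t r * Complex.exp (2 * Real.pi * Complex.I * (β t r * h))‖ ^ 2) / (B * 2 ^ m) := by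
    intro t _
    unfold ds
    rw [Nat.cast_mul, Nat.cast_pow, Nat.cast_ofNat]
  have hRt : ∀ q ∈ oct m, FC f H q (2 ^ w) n (c q) =
      (∑ t ∈ range (2 ^ w), ‖∑ h ∈ range (H + 1), c q h * f (n + 1 + t + q * h)‖ ^ 2) /
        2 ^ w := by
    intro q _
    unfold FC
    rw [sum_Ioc_range, Nat.cast_pow, Nat.cast_ofNat]
  rw [sum_congr rfl hL, sum_congr rfl hRt]
  exact hs

end Pool.Agent.H68.RC
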